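import Pool.Agent.T9h19.RM.OracU
import Pool.Agent.T9h19.RM.Fin

/-!
# Monotone advice and antitone oracles for circuits of small depth
-/

set_option autoImplicit false

namespace Pool.Agent.Results.MP_7713c5_lc.AdviceOraclesPolylog

open Finset Pool.Agent.H540R2 Pool.Agent.T9h19.RM

/-- There is a constant `K` such that for every `S ≥ 2` there is a monotone circuit `C` of size at
most `S` with the following properties. Consider devices with `R` bits of advice `h i`, given by
monotone circuits of depth at most `d`, with `t` oracles `O j`, which are arbitrary functions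
antitone in the variables in `U`, and with `2 ^ R` monotone circuits `M v` of depth at most `d`,
which read the input and the values of the oracles.

(1) For each set `U` of variables, each `d` and each `e ≥ 1` there is a finite list of inputs, which
are equal outside `U`, such that each such device agrees with `C` on at most a fraction
`1 / 2 + 1 / e + Q (R + t + 1) / |U|` of them, where `Q = (K (d + e + log S)) ^ K`.

(2) If for each assignment of values to the variables outside `U` such a device computes `C` on all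
the inputs with these values, then `|U| ≤ Q (R + t + 1)` with `Q = (K (d + log S)) ^ K`.

(3) If such a device, with antitone oracles, computes `C`, then `S ≤ Q (R + t + 1)`. -/
theorem result : ∃ K : ℕ, ∀ S : ℕ, 2 ≤ S → ∃ (n : ℕ) (C : Circuit n), C.Monotone ∧
    C.size ≤ S ∧ n ≤ 4 * S ∧
    (∀ (U : Finset (Fin n)) (d e : ℕ), 1 ≤ e → ∃ (N : ℕ) (X : Fin N → (Fin n → Bool)), 0 < N ∧
      (∀ i j, ∀ k, k ∉ U → X i k = X j k) ∧
      ∀ (R t : ℕ) (h : Fin R → Circuit n) (O : Fin t → (Fin n → Bool) → Bool)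
        (M : (Fin R → Bool) → Circuit (n + t)), (∀ i, (h i).Monotone ∧ (h i).depth ≤ d) →
        (∀ j, AntiOn U (O j)) → (∀ v, (M v).Monotone ∧ (M v).depth ≤ d) →
        (U.card : ℝ) * (agree X (adv h O M) (fun x => C.eval x) - 1 / 2 - 1 / e) ≤
          ((K * (d + e + Nat.log 2 S)) ^ K : ℕ) * ((R + t + 1 : ℕ) : ℝ)) ∧
    (∀ (U : Finset (Fin n)) (d R t : ℕ),
      (∀ α : Fin n → Bool, ∃ (h : Fin R → Circuit n) (O : Fin t → (Fin n → Bool) → Bool)
        (M : (Fin R → Bool) → Circuit (n + t)), (∀ i, (h i).Monotone ∧ (h i).depth ≤ d) ∧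
        (∀ j, AntiOn U (O j)) ∧ (∀ v, (M v).Monotone ∧ (M v).depth ≤ d) ∧
        ∀ x, (∀ i, i ∉ U → x i = α i) → adv h O M x = C.eval x) →
      U.card ≤ (K * (d + Nat.log 2 S)) ^ K * (R + t + 1)) ∧
    ∀ (d R t : ℕ) (h : Fin R → Circuit n) (O : Fin t → (Fin n → Bool) → Bool)
      (M : (Fin R → Bool) → Circuit (n + t)), (∀ i, (h i).Monotone ∧ (h i).depth ≤ d) →
      (∀ j, AntiOn univ (O j)) → (∀ v, (M v).Monotone ∧ (M v).depth ≤ d) →
      (∀ x, adv h O M x = C.eval x) → S ≤ (K * (d + Nat.log 2 S)) ^ K * (R + t + 1) := by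
  classical
  refine ⟨220, fun S hS => ?_⟩
  obtain ⟨n, C, c1, c2, c3, c4, c5⟩ := exists_hardA S hS
  have hL : 1 ≤ Nat.log 2 S := Nat.log_pos (by norm_num) hS
  -- the worst case
  have key : ∀ (U : Finset (Fin n)) (d R t : ℕ),
      (∀ α : Fin n → Bool, ∃ (h : Fin R → Circuit n) (O : Fin t → (Fin n → Bool) → Bool)
        (M : (Fin R → Bool) → Circuit (n + t)), (∀ i, (h i).Monotone ∧ (h i).depth ≤ d) ∧
        (∀ j, AntiOn U (O j)) ∧ (∀ v, (M v).Monotone ∧ (M v).depth ≤ d) ∧
        ∀ x, (∀ i, i ∉ U → x i = α i) → adv h O M x = C.eval x) →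
      U.card ≤ 6 * (175 * (d + 3 + Nat.log 2 S)) ^ 175 * (R + t + 1) := by
    intro U d R t hdev
    obtain ⟨α, N, X, hN, hX, hh⟩ := c5.adv hS c3 U d 3 (by norm_num)
    obtain ⟨h, O, M, h1, h2, h3, h4⟩ := hdev α
    have hA : agree X (adv h O M) (fun x => C.eval x) = 1 := by
      unfold agree
      have h5 : (univ.filter (fun i => adv h O M (X i) = C.eval (X i))) = univ := by
        rw [filter_eq_self]
        intro i _
        exact h4 _ (hX i)
      rw [h5, card_univ, Fintype.card_fin]
      have : (N : ℝ) ≠ 0 := by exact_mod_cast hN.ne'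
      exact div_self this
    exact worst hA (hh R t h O M h1 h2 h3)
  refine ⟨n, C, c1, c2, c3, ?_, fun U d R t hdev => worst_num hL (key U d R t hdev), ?_⟩
  · intro U d e he
    obtain ⟨α, N, X, hN, hX, h⟩ := c5.adv hS c3 U d e he
    refine ⟨N, X, hN, fun i j k hk => (hX i k hk).trans (hX j k hk).symm,
      fun R t h' O M h1 h2 h3 => (h R t h' O M h1 h2 h3).trans ?_⟩
    apply mul_le_mul_of_nonneg_right _ (Nat.cast_nonneg _)
    exact_mod_cast avg_num
  · intro d R t h O M h1 h2 h3 h4
    have h5 := key univ d R t fun α => ⟨h, O, M, h1, h2, h3, fun x _ => h4 x⟩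
    rw [card_univ, Fintype.card_fin] at h5
    exact worst_num_S hL (Nat.succ_le_succ (Nat.zero_le _)) c4 h5

end Pool.Agent.Results.MP_7713c5_lc.AdviceOraclesPolylog
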