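import Pool.Agent.T9h19.RM.FormU
import Pool.Agent.T9h19.RM.Fin
import Pool.Agent.T9h19.RM.FinF

/-!
# Formulas with few NOT gates or other non-monotone gates
-/

set_option autoImplicit false

namespace Pool.Agent.Results.MP_7713c5_lc.FormulasFewNots

open Finset Pool.Agent.H540R2 Pool.Agent.T9h19.RM

/-- There is a constant `K` such that for every `S ≥ 2` there is a monotone circuit `C` of size at
most `S` with the following properties. Consider formulas over AND, OR and arbitrary further gates,
for example NOT gates.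

(1) For each set `U` of variables, each `s` and each `e ≥ 1` there is a finite list of inputs, which
are equal outside `U`, such that each formula `F` of size at most `s` agrees with `C` on at most a
fraction `1 / 2 + 1 / e + Q (q + 1) / |U|` of them, where `Q = (K (log s + e + log S)) ^ K` and `q`
is the number of operands of further gates of `F` in which a variable in `U` occurs.

(2) If for each assignment of values to the variables outside `U` a formula of size at most `s` with
at most `q` such operands computes `C` on all the inputs with these values, then `|U| ≤ Q (q + 1)`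
with `Q = (K (log s + log S)) ^ K`.

(3) If a formula of size `s` with `q` operands of further gates computes `C`, then
`S ≤ Q (q + 1)`. -/
theorem result : ∃ K : ℕ, ∀ S : ℕ, 2 ≤ S → ∃ (n : ℕ) (C : Circuit n), C.Monotone ∧
    C.size ≤ S ∧ n ≤ 4 * S ∧
    (∀ (U : Finset (Fin n)) (s e : ℕ), 1 ≤ e → ∃ (N : ℕ) (X : Fin N → (Fin n → Bool)), 0 < N ∧
      (∀ i j, ∀ k, k ∉ U → X i k = X j k) ∧
      ∀ F : GFm n, F.size ≤ s →
        (U.card : ℝ) * (agree X (fun x => F.eval x) (fun x => C.eval x) - 1 / 2 - 1 / e) ≤
          ((K * (Nat.log 2 s + e + Nat.log 2 S)) ^ K : ℕ) * ((F.wires U + 1 : ℕ) : ℝ)) ∧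
    (∀ (U : Finset (Fin n)) (s q : ℕ),
      (∀ α : Fin n → Bool, ∃ F : GFm n, F.size ≤ s ∧ F.wires U ≤ q ∧
        ∀ x, (∀ i, i ∉ U → x i = α i) → F.eval x = C.eval x) →
      U.card ≤ (K * (Nat.log 2 s + Nat.log 2 S)) ^ K * (q + 1)) ∧
    ∀ F : GFm n, (∀ x, F.eval x = C.eval x) →
      S ≤ (K * (Nat.log 2 F.size + Nat.log 2 S)) ^ K * (F.wires univ + 1) := by
  classical
  refine ⟨250, fun S hS => ?_⟩
  obtain ⟨n, C, c1, c2, c3, c4, c5⟩ := exists_hardA S hS
  have hL : 1 ≤ Nat.log 2 S := Nat.log_pos (by norm_num) hS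
  -- the worst case
  have key : ∀ (U : Finset (Fin n)) (s q : ℕ),
      (∀ α : Fin n → Bool, ∃ F : GFm n, F.size ≤ s ∧ F.wires U ≤ q ∧
        ∀ x, (∀ i, i ∉ U → x i = α i) → F.eval x = C.eval x) →
      U.card ≤ 6 * (200 * (Nat.log 2 s + 3 + Nat.log 2 S)) ^ 200 * (q + 1) := by
    intro U s q hdev
    obtain ⟨α, N, X, hN, hX, hh⟩ := c5.formula hS c3 U s 3 (by norm_num)
    obtain ⟨F, h1, h2, h3⟩ := hdev α
    have hA : agree X (fun x => F.eval x) (fun x => C.eval x) = 1 := by
      unfold agree
      have h5 : (univ.filter (fun i => F.eval (X i) = C.eval (X i))) = univ := by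
        rw [filter_eq_self]
        intro i _
        exact h3 _ (hX i)
      rw [h5, card_univ, Fintype.card_fin]
      have : (N : ℝ) ≠ 0 := by exact_mod_cast hN.ne'
      exact div_self this
    exact (worst hA (hh F h1)).trans (Nat.mul_le_mul_left _ (Nat.succ_le_succ h2))
  refine ⟨n, C, c1, c2, c3, ?_, fun U s q hdev => worst_numF hL (key U s q hdev), ?_⟩
  · intro U s e he
    obtain ⟨α, N, X, hN, hX, h⟩ := c5.formula hS c3 U s e he
    refine ⟨N, X, hN, fun i j k hk => (hX i k hk).trans (hX j k hk).symm,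
      fun F hF => (h F hF).trans ?_⟩
    apply mul_le_mul_of_nonneg_right _ (Nat.cast_nonneg _)
    exact_mod_cast avg_numF
  · intro F hF
    have h5 := key univ F.size (F.wires univ) fun α => ⟨F, le_rfl, le_rfl, fun x _ => hF x⟩
    rw [card_univ, Fintype.card_fin] at h5
    exact worst_num_SF hL (Nat.succ_le_succ (Nat.zero_le _)) c4 h5

end Pool.Agent.Results.MP_7713c5_lc.FormulasFewNots
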