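import Pool.Agent.T9h19.RM.NotsU
import Pool.Agent.T9h19.RM.Fin
import Pool.Agent.T9h19.RM.ZMain

/-!
# The NOT gates of circuits of small depth for functions with small monotone circuits
-/

set_option autoImplicit false

namespace Pool.Agent.Results.MP_7713c5_lc.NotGatesEveryStep

open Finset Pool.Agent.H540R2 Pool.Agent.T9h19.RM

open Classical in
/-- There is a constant `K` such that for every `S ≥ 2` there is a monotone circuit `C` of size at
most `S`, with `n ≥ S / (K log ^ 4 S) - 1` variables, with the following properties.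

(1) For each set `U` of variables, each `d` and each `e ≥ 1` there are a number `M`, with
`|U| ≤ (K (d + e + log S)) ^ K (M + 1)`, a finite list of chains `z 0 ≤ z 1 ≤ … ≤ z M` of inputs
which `C` rejects, and a finite list `X` of inputs, all of them equal outside `U`, such that each
circuit `D` of depth at most `d` has the following properties.

If `D` agrees with `C` on a fraction `p` of the inputs in `X` then the average number of the steps
`j < M` of the chains at which a NOT gate of `D` that is connected to the output changes its value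
is at least `2 M (p - 1 / 2 - 1 / e)`.

If `D` computes `C` on the inputs which are equal to those in the list outside `U` then there are
such changes at all steps of the chains, except for a fraction `2 ^ (-e)` of the chains.

(2) If `D` is equivalent to `C`, and `Q = (K (depth D + log S)) ^ K`, then for each set `U` of
variables at least `log (|U| / Q)` NOT gates of `D` are above `U`, and `D` has at least
`log (S / Q)` NOT gates. -/
theorem result : ∃ K : ℕ, ∀ S : ℕ, 2 ≤ S → ∃ (n : ℕ) (C : Circuit n), C.Monotone ∧
    C.size ≤ S ∧ n ≤ 4 * S ∧ S ≤ K * Nat.log 2 S ^ 4 * (n + 1) ∧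
    (∀ (U : Finset (Fin n)) (d e : ℕ), 1 ≤ e →
      ∃ (α : Fin n → Bool) (M N L : ℕ) (z : Fin N → ℕ → (Fin n → Bool))
        (X : Fin L → (Fin n → Bool)), 0 < N ∧ 0 < L ∧
        U.card ≤ (K * (d + e + Nat.log 2 S)) ^ K * (M + 1) ∧
        (∀ i j k, z i j k = true → z i (j + 1) k = true) ∧
        (∀ i j k, k ∉ U → z i j k = α k) ∧ (∀ i k, k ∉ U → X i k = α k) ∧
        (∀ i j, C.eval (z i j) = false) ∧
        ∀ D : Circuit n, D.depth ≤ d →
          2 * (M : ℝ) * (agree X (fun x => D.eval x) (fun x => C.eval x) - 1 / 2 - 1 / e) ≤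
            ((∑ i, ((range M).filter (fun j => NotChange D (z i j) (z i (j + 1)))).card : ℕ) : ℝ) /
              N ∧
          ((∀ x, (∀ k, k ∉ U → x k = α k) → D.eval x = C.eval x) →
            2 ^ e * (univ.filter (fun i => ¬ ∀ j < M,
              NotChange D (z i j) (z i (j + 1)))).card ≤ N)) ∧
    ∀ D : Circuit n, C.Equiv D →
      (∀ U : Finset (Fin n),
        U.card ≤ (K * (D.depth + Nat.log 2 S)) ^ K * 2 ^ notsAbove D U) ∧
      S ≤ (K * (D.depth + Nat.log 2 S)) ^ K * 2 ^ D.nots := by
  refine ⟨220, fun S hS => ?_⟩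
  obtain ⟨n, C, c1, c2, c3, c4, c5⟩ := exists_rich S hS
  have hL : 1 ≤ Nat.log 2 S := Nat.log_pos (by norm_num) hS
  refine ⟨n, C, c1, c2, c3, c4.trans (Nat.mul_le_mul_right _ (Nat.mul_le_mul_right _ (by norm_num))),
    ?_, ?_⟩
  · intro U d e he
    obtain ⟨α, M, N, L, z, X, h1, h2, h3, h4⟩ := chains hS c3 c5 U d e he
    refine ⟨α, M, N, L, z, X, h1, h2, h3.trans (Nat.mul_le_mul_right _ ?_), h4⟩
    obtain ⟨Y, hY⟩ : ∃ Y, Y = d + e + Nat.log 2 S := ⟨_, rfl⟩
    rw [← hY]
    have hY1 : 1 ≤ Y := by omega
    calc (160 * Y) ^ 160 ≤ (220 * Y) ^ 160 :=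
          Nat.pow_le_pow_left (Nat.mul_le_mul_right _ (by norm_num)) _
      _ ≤ _ := Nat.pow_le_pow_right (by omega) (by norm_num)
  · intro D hD
    have hA := hardA_of_rich hS c5
    have key : ∀ U : Finset (Fin n), U.card ≤
        6 * (175 * (D.depth + 3 + Nat.log 2 S)) ^ 175 * 2 ^ notsAbove D U := by
      intro U
      obtain ⟨α, N, X, hN, hX, h⟩ := hA.notLevels hS c3 U D.depth 3 (by norm_num)
      obtain ⟨lev, r, h1, h2⟩ := exists_notLevels D U
      have hag : agree X (fun x => D.eval x) (fun x => C.eval x) = 1 := by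
        unfold agree
        have h3 : (univ.filter (fun i => D.eval (X i) = C.eval (X i))) = univ := by
          rw [filter_eq_self]
          intro i _
          exact (hD _).symm
        rw [h3, card_univ, Fintype.card_fin]
        have : (N : ℝ) ≠ 0 := by exact_mod_cast hN.ne'
        exact div_self this
      exact (worst hag (h D le_rfl lev r h1)).trans (Nat.mul_le_mul_left _ h2)
    refine ⟨fun U => worst_num hL (key U), ?_⟩
    have h1 := key univ
    rw [card_univ, Fintype.card_fin] at h1
    refine worst_num_S hL Nat.one_le_two_pow c4 (h1.trans (Nat.mul_le_mul_left _ ?_))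
    apply Nat.pow_le_pow_right (by norm_num)
    unfold notsAbove Circuit.nots
    apply card_le_card
    intro i hi
    obtain ⟨h1, h2, _⟩ := mem_filter.mp hi
    exact mem_filter.mpr ⟨h1, h2⟩

end Pool.Agent.Results.MP_7713c5_lc.NotGatesEveryStep
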