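import Pool.Agent.T9h35.NW.Final

/-!
# One-sided approximation and nondeterministic simulation in small depth, with NOT gates

The question: is every circuit of size `S` equivalent to one of depth `O(log S)`?  Here: one-sided
approximations of circuits `C` without NOT gates by arbitrary circuits of small depth `d`, and
simulations in which a verifier `D w` of depth `d` may depend arbitrarily on a witness `w`.

1. A property of ALL circuits `D ≥ C` of depth `d` (and dually of all circuits `D ≤ C`).  There are
   random increasing chains of inputs rejected by `C` such that `D` rejects the last input of a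
   segment of `h` steps, without a change of the values of its NOT gates on the segment, with
   probability at most `2 ^ (-h)`.  For circuits without NOT gates and the whole chain, of length
   `M = n / poly(d)`, this is: `D` rejects at most a fraction `2 ^ (-M)` of a list of inputs.
2. If `C` is the disjunction, or the conjunction, of circuits `D w` of depth `d` with `t` NOT gates
   each, `w` in a set with `2 ^ m` elements, then `m ≥ M` for `t = 0`, and for `t ≥ 1`
   `m + t ≥ log n - O(log log n)` if `d` is polylogarithmic.  If the question has the answer yes,
   then `m = log (n + 1)` is enough for `t = 1`: guess the number of ones of the input.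

The case without NOT gates is the former hand-in OneSidedApproximation (helper19), from which the
circuits `C` and the lower bound for one block are taken.
-/

set_option autoImplicit false

namespace Pool.Agent.Results.MP_7713c5_lc.WitnessBitsAndNots

open Finset Pool.Agent.H540R2 Pool.Agent.T9h19.RM

open Classical in
/-- There is a constant `K` such that for all `S, d ≥ 1` there are `M ≥ S / (K d) ^ K - 1` and a
monotone circuit `C` of size at most `S` and depth at most `K (d log d + d + log S)` with the
following properties.

(1) There is a finite list of increasing chains `z i 0 ≤ z i 1 ≤ ...` of inputs rejected by `C` such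
that for each circuit `D` of depth at most `d` (of any size, with any number of NOT gates) which
accepts all inputs accepted by `C` and all `j + h ≤ M` the following holds for at most a fraction
`2 ^ (-h)` of the chains: `D` rejects `z i (j + h)`, and no NOT gate of `D` that is connected to the
output changes its value at one of the steps from `z i j` to `z i (j + h)`.

(2) There is a finite list of decreasing chains of inputs accepted by `C` such that for each circuit
`D` of depth at most `d` which rejects all inputs rejected by `C` and all `j + h ≤ M` the following
holds for at most a fraction `2 ^ (-h)` of the chains: `D` accepts `z i (j + h)`, and no NOT gate of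
`D` that is connected to the output changes its value at one of the steps from `z i j` to
`z i (j + h)`.

(3) If `C` computes the disjunction, or the conjunction, of the functions computed by circuits `D w`
of depth at most `d` with at most `t` NOT gates, for `w` in a finite set `W`, then
`1 ≤ |W| (2 ^ (-h) + 2 h (2 ^ t - 1) / M)` for all `1 ≤ h ≤ M`; for `t = 0` and `h = M` this says
`|W| ≥ 2 ^ M`. -/
theorem result : ∃ K : ℕ, ∀ S d : ℕ, 1 ≤ S → 1 ≤ d → ∃ (n : ℕ) (C : Circuit n) (M : ℕ),
    C.Monotone ∧ C.size ≤ S ∧ n ≤ 4 * S ∧
    C.depth ≤ K * (d * (Nat.log 2 d + 1) + Nat.log 2 S) ∧ S ≤ (K * d) ^ K * (M + 1) ∧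
    (∃ (N : ℕ) (z : Fin N → ℕ → (Fin n → Bool)), 0 < N ∧
      (∀ i j, C.eval (z i j) = false) ∧ (∀ i j k, z i j k = true → z i (j + 1) k = true) ∧
      ∀ D : Circuit n, D.depth ≤ d → (∀ x, C.eval x = true → D.eval x = true) →
        ∀ j h, j + h ≤ M → 2 ^ h * (univ.filter (fun i => D.eval (z i (j + h)) = false ∧
          ∀ l < h, ¬ NotChange D (z i (j + l)) (z i (j + l + 1)))).card ≤ N) ∧
    (∃ (N : ℕ) (z : Fin N → ℕ → (Fin n → Bool)), 0 < N ∧
      (∀ i j, C.eval (z i j) = true) ∧ (∀ i j k, z i (j + 1) k = true → z i j k = true) ∧
      ∀ D : Circuit n, D.depth ≤ d → (∀ x, D.eval x = true → C.eval x = true) →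
        ∀ j h, j + h ≤ M → 2 ^ h * (univ.filter (fun i => D.eval (z i (j + h)) = true ∧
          ∀ l < h, ¬ NotChange D (z i (j + l)) (z i (j + l + 1)))).card ≤ N) ∧
    ∀ (W : Type) [Fintype W] (D : W → Circuit n) (t : ℕ),
      (∀ w, (D w).depth ≤ d ∧ (D w).nots ≤ t) →
      ((∀ x, C.eval x = true ↔ ∃ w, (D w).eval x = true) ∨
        (∀ x, C.eval x = true ↔ ∀ w, (D w).eval x = true)) →
      ∀ h, 1 ≤ h → h ≤ M →
        2 ^ h * M ≤ Fintype.card W * (M + 2 ^ h * (2 * h * (2 ^ t - 1))) :=
  Pool.Agent.T9h35.NW.final

end Pool.Agent.Results.MP_7713c5_lc.WitnessBitsAndNots
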